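import Mathlib

open Filter Cardinal MeasureTheory Set Topology

namespace Pool.Agent.MP_1e8244_lc

/-- Baire space `ω^ω` (product topology, Borel sets). -/
abbrev Baire : Type := ℕ → ℕ

/-- A slalom: a function `s : ω → [ω]^{<ω}` with `|s(n)| ≤ n` for all `n`. -/
def Slalom : Type := {s : ℕ → Finset ℕ // ∀ n, (s n).card ≤ n}

/-- `x ≠* y`: `x(k) ≠ y(k)` for all but finitely many `k`. -/
def EvDiff (x y : Baire) : Prop := ∀ᶠ k in atTop, x k ≠ y k

/-- `x ∈* s`: `x(k) ∈ s(k)` for all but finitely many `k`. -/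
def EvIn (x : Baire) (s : Slalom) : Prop := ∀ᶠ k in atTop, x k ∈ s.1 k

/-- The ideal `K` of the subsets of Baire space contained in a `σ`-compact set. -/
def idealK : Set (Set Baire) := {X | ∃ S : Set Baire, IsSigmaCompact S ∧ X ⊆ S}

/-- The ideal of the `μ`-null subsets of Baire space. -/
def idealN (μ : Measure Baire) : Set (Set Baire) := {X | μ X = 0}

/-- The relation `R_I` between functions with domain `ω^ω`:
`f R_I g` iff `{x : ¬ (f(x) R g(x))} ∈ I`. -/
def RelMod {α β : Type} (R : α → β → Prop) (I : Set (Set Baire))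
    (f : Baire → α) (g : Baire → β) : Prop :=
  {x | ¬ R (f x) (g x)} ∈ I

/-- The bounding number `b(R_I)`: the least cardinality of a family `A` of functions on `ω^ω`
such that no single `g` satisfies `f R_I g` for all `f ∈ A`. -/
noncomputable def boundingNumber {α β : Type} (R : α → β → Prop) (I : Set (Set Baire)) :
    Cardinal.{0} :=
  sInf {κ | ∃ A : Set (Baire → α), #A = κ ∧ ¬ ∃ g : Baire → β, ∀ f ∈ A, RelMod R I f g}

end Pool.Agent.MP_1e8244_lc
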