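import Pool.Agent.MP_1e8244_lc.Defs

open Filter Cardinal MeasureTheory Set Topology

namespace Pool.Agent.MP_1e8244_lc

/-! ### Auxiliary cardinals -/

/-- the bounding number of `∈*` -/
noncomputable def bIn : Cardinal.{0} :=
  sInf {κ | ∃ A : Set Baire, #A = κ ∧ ¬ ∃ s : Slalom, ∀ x ∈ A, EvIn x s}

/-- the bounding number of `≠*` -/
noncomputable def bNe : Cardinal.{0} :=
  sInf {κ | ∃ A : Set Baire, #A = κ ∧ ¬ ∃ y : Baire, ∀ x ∈ A, EvDiff x y}

/-- the dominating number -/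
noncomputable def dNum : Cardinal.{0} :=
  sInf {κ | ∃ D : Set Baire, #D = κ ∧ ∀ x : Baire, ∃ h ∈ D, ∀ᶠ n in atTop, x n ≤ h n}

lemma captured {ι : Type} (h : #ι < bIn) (F : ι → Baire) : ∃ s : Slalom, ∀ i, EvIn (F i) s := by
  by_contra hcon
  have h1 : bIn ≤ #(range F) := csInf_le' ⟨range F, rfl, by simpa using hcon⟩
  exact absurd (h1.trans mk_range_le) (not_le.mpr h)

lemma avoided {ι : Type} (h : #ι < bNe) (F : ι → Baire) : ∃ y : Baire, ∀ i, EvDiff (F i) y := by
  by_contra hcon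
  have h1 : bNe ≤ #(range F) := csInf_le' ⟨range F, rfl, by simpa using hcon⟩
  exact absurd (h1.trans mk_range_le) (not_le.mpr h)

lemma not_dominating {ι : Type} (h : #ι < dNum) (F : ι → Baire) :
    ∃ x : Baire, ∀ i, ¬ ∀ᶠ n in atTop, x n ≤ F i n := by
  by_contra hcon
  push Not at hcon
  have h1 : dNum ≤ #(range F) := csInf_le' ⟨range F, rfl, by
    intro x
    obtain ⟨i, hi⟩ := hcon x
    exact ⟨F i, mem_range_self i, hi⟩⟩
  exact absurd (h1.trans mk_range_le) (not_le.mpr h)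

lemma exists_dominating : ∃ D : Set Baire, #D = dNum ∧
    ∀ x : Baire, ∃ h ∈ D, ∀ᶠ n in atTop, x n ≤ h n := by
  have hne : {κ | ∃ D : Set Baire, #D = κ ∧ ∀ x : Baire, ∃ h ∈ D, ∀ᶠ n in atTop, x n ≤ h n}.Nonempty :=
    ⟨_, univ, rfl, fun x => ⟨x, mem_univ _, Eventually.of_forall fun _ => le_rfl⟩⟩
  exact csInf_mem hne

lemma slalom_avoid (s : Slalom) : ∃ y : Baire, ∀ x : Baire, EvIn x s → EvDiff x y := by
  have h : ∀ n, ∃ k, k ∉ s.1 n := fun n => Infinite.exists_notMem_finset (s.1 n)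
  choose y hy using h
  refine ⟨y, fun x hx => ?_⟩
  filter_upwards [hx] with n hn heq
  exact hy n (heq ▸ hn)

lemma slalom_bound (s : Slalom) : ∃ y : Baire, ∀ x : Baire, EvIn x s → ∀ᶠ n in atTop, x n ≤ y n := by
  refine ⟨fun n => (s.1 n).sup id, fun x hx => ?_⟩
  filter_upwards [hx] with n hn
  exact Finset.le_sup (f := id) hn

lemma exists_uncaptured : ∃ A : Set Baire, #A = bIn ∧ ¬ ∃ s : Slalom, ∀ x ∈ A, EvIn x s := by
  have hne : {κ | ∃ A : Set Baire, #A = κ ∧ ¬ ∃ s : Slalom, ∀ x ∈ A, EvIn x s}.Nonempty := by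
    refine ⟨_, univ, rfl, ?_⟩
    rintro ⟨s, hs⟩
    obtain ⟨y, hy⟩ := slalom_avoid s
    have := hy y (hs y (mem_univ _))
    obtain ⟨n, hn⟩ := this.exists
    exact hn rfl
  exact csInf_mem hne

lemma exists_unavoided : ∃ A : Set Baire, #A = bNe ∧ ¬ ∃ y : Baire, ∀ x ∈ A, EvDiff x y := by
  have hne : {κ | ∃ A : Set Baire, #A = κ ∧ ¬ ∃ y : Baire, ∀ x ∈ A, EvDiff x y}.Nonempty := by
    refine ⟨_, univ, rfl, ?_⟩
    rintro ⟨y, hy⟩
    have := hy y (mem_univ _)
    obtain ⟨n, hn⟩ := this.exists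
    exact hn rfl
  exact csInf_mem hne

lemma bIn_le_bNe : bIn ≤ bNe := by
  obtain ⟨A, hA, hA'⟩ := exists_unavoided
  rw [← hA]
  refine csInf_le' ⟨A, rfl, ?_⟩
  rintro ⟨s, hs⟩
  obtain ⟨y, hy⟩ := slalom_avoid s
  exact hA' ⟨y, fun x hx => hy x (hs x hx)⟩

lemma bIn_le_dNum : bIn ≤ dNum := by
  obtain ⟨D, hD, hD'⟩ := exists_dominating
  rw [← hD]
  refine csInf_le' ⟨D, rfl, ?_⟩
  rintro ⟨s, hs⟩
  obtain ⟨y, hy⟩ := slalom_bound s
  obtain ⟨h, hh, hh'⟩ := hD' (fun n => y n + 1)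
  obtain ⟨n, hn, hn'⟩ := (hh'.and (hy h (hs h hh))).exists
  omega

lemma bIn_le_continuum : bIn ≤ 𝔠 := by
  obtain ⟨A, hA, -⟩ := exists_uncaptured
  rw [← hA]
  calc #A ≤ #Baire := mk_set_le A
    _ = 𝔠 := by simp [Baire]

lemma aleph0_le_bIn : ℵ₀ ≤ bIn := by
  obtain ⟨A, hA, hA'⟩ := exists_uncaptured
  rw [← hA]
  by_contra hlt
  rw [not_le, lt_aleph0_iff_set_finite] at hlt
  apply hA'
  classical
  refine ⟨⟨fun n => if hlt.toFinset.card ≤ n then hlt.toFinset.image (fun x => x n) else ∅, ?_⟩, ?_⟩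
  · intro n
    dsimp only
    split_ifs with h
    · exact Finset.card_image_le.trans h
    · simp
  · intro x hx
    have : ∀ᶠ n in atTop, hlt.toFinset.card ≤ n := eventually_ge_atTop _
    filter_upwards [this] with n hn
    simp only [hn, if_true]
    exact Finset.mem_image_of_mem (fun x : Baire => x n) (hlt.mem_toFinset.mpr hx)

lemma idealK_bdd {X : Set Baire} (hX : X ∈ idealK) :
    ∃ h : Baire, ∀ x ∈ X, ∀ᶠ n in atTop, x n ≤ h n := by
  obtain ⟨S, ⟨K, hK, hKS⟩, hXS⟩ := hX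
  have hb : ∀ n k : ℕ, ∃ b : ℕ, ∀ x ∈ K n, x k ≤ b := by
    intro n k
    have hc : IsCompact ((fun x : Baire => x k) '' K n) := (hK n).image (continuous_apply k)
    obtain ⟨b, hb⟩ := hc.bddAbove
    exact ⟨b, fun x hx => hb ⟨x, hx, rfl⟩⟩
  choose b hb using hb
  refine ⟨fun k => (Finset.range (k + 1)).sup fun n => b n k, fun x hx => ?_⟩
  have hxS := hXS hx
  rw [← hKS, mem_iUnion] at hxS
  obtain ⟨n, hn⟩ := hxS
  filter_upwards [eventually_ge_atTop n] with k hk
  exact (hb n k x hn).trans (Finset.le_sup (f := fun n => b n k) (Finset.mem_range.mpr (by omega)))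


/-! ### Null sets -/

/-- A countable family of sets: differences of finite unions of basic open sets. -/
lemma exists_code : ∃ D : ℕ → Set Baire, ∀ μ : Measure Baire, IsFiniteMeasure μ →
    ∀ N : Set Baire, μ N = 0 → ∀ δ : ℕ → ENNReal, (∀ n, 0 < δ n) →
      ∃ f : ℕ → ℕ, (∀ n, μ (D (f n)) ≤ δ n) ∧ N ⊆ ⋃ n, D (f n) := by
  classical
  obtain ⟨B, hBo, hB⟩ : ∃ B : ℕ → Set Baire, (∀ n, IsOpen (B n)) ∧
      ∀ U : Set Baire, IsOpen U → ∃ S : Set ℕ, U = ⋃ n ∈ S, B n := by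
    obtain ⟨b, hbc, -, hb⟩ := TopologicalSpace.exists_countable_basis Baire
    have hbne : b.Nonempty := by
      by_contra h
      rw [not_nonempty_iff_eq_empty] at h
      have := hb.sUnion_eq
      rw [h, sUnion_empty] at this
      exact (this ▸ (mem_univ (0 : Baire)) : (0 : Baire) ∈ (∅ : Set Baire))
    obtain ⟨B, hB⟩ := hbc.exists_eq_range hbne
    refine ⟨B, fun n => hb.isOpen (hB ▸ mem_range_self n), fun U hU => ?_⟩
    refine ⟨{n | B n ⊆ U}, ?_⟩
    ext x
    simp only [mem_ofPred_eq, mem_iUnion, exists_prop]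
    constructor
    · intro hx
      obtain ⟨V, hV, hxV, hVU⟩ := hb.exists_subset_of_mem_open hx hU
      rw [hB] at hV
      obtain ⟨n, rfl⟩ := hV
      exact ⟨n, hVU, hxV⟩
    · rintro ⟨n, hn, hx⟩
      exact hn hx
  -- codes
  let W : Finset ℕ → Set Baire := fun F => ⋃ n ∈ F, B n
  let E : ℕ → Set Baire := fun c =>
    match Encodable.decode (α := Finset ℕ × Finset ℕ) c with
    | some p => W p.1 \ W p.2
    | none => ∅
  have hE : ∀ F G : Finset ℕ, ∃ c, E c = W F \ W G := fun F G =>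
    ⟨Encodable.encode (F, G), by simp [E]⟩
  refine ⟨E, fun μ hμ N hN δ hδ => ?_⟩
  obtain ⟨U, hNU, hUo, hUδ⟩ := N.exists_isOpen_lt_of_lt (δ 0) (hN ▸ hδ 0)
  obtain ⟨S, hS⟩ := hB U hUo
  let V : ℕ → Finset ℕ := fun m => (Finset.range m).filter (· ∈ S)
  have hVmono : Monotone V := by
    intro a b hab
    exact Finset.filter_subset_filter _ (Finset.range_mono hab)
  have hWmono : ∀ {F G : Finset ℕ}, F ⊆ G → W F ⊆ W G := by
    intro F G hFG
    exact biUnion_subset_biUnion_left hFG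
  have hWV : ⋃ m, W (V m) = U := by
    rw [hS]
    ext x
    simp only [W, V, mem_iUnion, Finset.mem_filter, Finset.mem_range, exists_prop]
    constructor
    · rintro ⟨m, n, ⟨-, hn⟩, hx⟩
      exact ⟨n, hn, hx⟩
    · rintro ⟨n, hn, hx⟩
      exact ⟨n + 1, n, ⟨Nat.lt_succ_self n, hn⟩, hx⟩
  have hWo : ∀ F, IsOpen (W F) := fun F => isOpen_biUnion fun n _ => hBo n
  have hlim : Tendsto (fun m => μ (U \ W (V m))) atTop (𝓝 0) := by
    have h1 := tendsto_measure_iInter_atTop (μ := μ) (s := fun m => U \ W (V m))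
      (fun m => (hUo.measurableSet.diff (hWo _).measurableSet).nullMeasurableSet)
      (fun a b hab => sdiff_subset_sdiff_right (hWmono (hVmono hab)))
      ⟨0, measure_ne_top _ _⟩
    have h2 : ⋂ m, U \ W (V m) = ∅ := by
      rw [← sdiff_iUnion, hWV, sdiff_self]
    rw [h2, measure_empty] at h1
    exact h1
  have hev : ∀ n : ℕ, ∀ᶠ k in atTop, μ (U \ W (V k)) ≤ δ (n + 1) := by
    intro n
    exact (hlim.eventually (gt_mem_nhds (hδ (n + 1)))).mono fun _ h => le_of_lt h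
  obtain ⟨φ, hφ, hφ'⟩ := extraction_forall_of_eventually hev
  choose c hc using hE
  refine ⟨fun n => Nat.casesOn n (c (V (φ 0)) ∅) (fun n => c (V (φ (n + 1))) (V (φ n))), ?_, ?_⟩
  · intro n
    cases n with
    | zero =>
      change μ (E (c (V (φ 0)) ∅)) ≤ δ 0
      rw [hc]
      refine (measure_mono (sdiff_subset.trans ?_)).trans hUδ.le
      rw [← hWV]
      exact subset_iUnion (fun m => W (V m)) (φ 0)
    | succ n =>
      change μ (E (c (V (φ (n + 1))) (V (φ n)))) ≤ δ (n + 1)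
      rw [hc]
      refine (measure_mono ?_).trans (hφ' n)
      refine sdiff_subset_sdiff_left ?_
      rw [← hWV]
      exact subset_iUnion (fun m => W (V m)) (φ (n + 1))
  · intro x hx
    have hxU := hNU hx
    rw [← hWV, mem_iUnion] at hxU
    have hex : ∃ n, x ∈ W (V (φ n)) := by
      obtain ⟨m, hm⟩ := hxU
      exact ⟨m, hWmono (hVmono (hφ.id_le m)) hm⟩
    rw [mem_iUnion]
    rcases Nat.eq_zero_or_pos (Nat.find hex) with h0 | hpos
    · refine ⟨0, ?_⟩
      change x ∈ E (c (V (φ 0)) ∅)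
      rw [hc]
      have hsp := Nat.find_spec hex
      rw [h0] at hsp
      exact ⟨hsp, by simp [W]⟩
    · obtain ⟨n, hn⟩ := Nat.exists_eq_succ_of_ne_zero hpos.ne'
      refine ⟨n + 1, ?_⟩
      change x ∈ E (c (V (φ (n + 1))) (V (φ n)))
      rw [hc]
      have hsp := Nat.find_spec hex
      rw [hn] at hsp
      exact ⟨hsp, Nat.find_min hex (by omega)⟩

/-- A union of fewer than `b(∈*)` null sets is null (finite measure). -/
lemma null_iUnion_finite (μ : Measure Baire) [IsFiniteMeasure μ] {ι : Type} (hι : #ι < bIn)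
    (N : ι → Set Baire) (hN : ∀ i, μ (N i) = 0) : μ (⋃ i, N i) = 0 := by
  classical
  obtain ⟨D, hD⟩ := exists_code
  let δ : ℕ → ENNReal := fun n => ((4 : ENNReal)⁻¹) ^ n
  have hδ : ∀ n, 0 < δ n := fun n => ENNReal.pow_pos (by simp) n
  -- for each `i` and `k`
  have h1 : ∀ i : ι, ∀ k : ℕ, ∃ f : ℕ → ℕ, (∀ l, μ (D (f l)) ≤ δ (Nat.pair k l)) ∧
      N i ⊆ ⋃ l, D (f l) := fun i k => hD μ inferInstance (N i) (hN i) _ fun l => hδ _
  choose f hf hf' using h1
  let F : ι → Baire := fun i n => f i n.unpair.1 n.unpair.2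
  obtain ⟨s, hs⟩ := captured hι F
  let T : ℕ → Set Baire := fun n => ⋃ c ∈ (s.1 n).filter (fun c => μ (D c) ≤ δ n), D c
  have hT : ∀ n, μ (T n) ≤ ((2 : ENNReal)⁻¹) ^ n := by
    intro n
    calc μ (T n) ≤ ∑ c ∈ (s.1 n).filter (fun c => μ (D c) ≤ δ n), μ (D c) :=
          measure_biUnion_finset_le _ _
      _ ≤ ∑ c ∈ (s.1 n).filter (fun c => μ (D c) ≤ δ n), δ n :=
          Finset.sum_le_sum fun c hc => (Finset.mem_filter.mp hc).2
      _ = ((s.1 n).filter (fun c => μ (D c) ≤ δ n)).card * δ n := by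
          rw [Finset.sum_const, nsmul_eq_mul]
      _ ≤ (2 : ENNReal) ^ n * δ n := by
          gcongr
          have : ((s.1 n).filter (fun c => μ (D c) ≤ δ n)).card ≤ 2 ^ n :=
            (Finset.card_filter_le _ _).trans ((s.2 n).trans (Nat.lt_two_pow_self).le)
          exact_mod_cast this
      _ = ((2 : ENNReal)⁻¹) ^ n := by
          have h4 : (4 : ENNReal)⁻¹ = 2⁻¹ * 2⁻¹ := by
            rw [← ENNReal.mul_inv (by simp) (by simp)]
            norm_num
          simp only [δ]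
          rw [h4, ← mul_pow, ← mul_assoc, ENNReal.mul_inv_cancel (by simp) (by simp), one_mul]
  have hlim : μ (limsup T atTop) = 0 := by
    apply measure_limsup_atTop_eq_zero
    refine ne_top_of_le_ne_top ?_ (ENNReal.tsum_le_tsum hT)
    rw [ENNReal.tsum_geometric]
    simp
  refine measure_mono_null ?_ hlim
  intro x hx
  obtain ⟨i, hi⟩ := mem_iUnion.mp hx
  rw [limsup_eq_iInf_iSup_of_nat']
  simp only [iInf_eq_iInter, iSup_eq_iUnion, mem_iInter, mem_iUnion]
  intro m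
  obtain ⟨m₀, hm₀⟩ := eventually_atTop.mp (hs i)
  obtain ⟨l, hl⟩ := mem_iUnion.mp (hf' i (max m m₀) hi)
  have hge : max m m₀ ≤ Nat.pair (max m m₀) l := Nat.left_le_pair _ _
  obtain ⟨j, hj⟩ := Nat.exists_eq_add_of_le ((le_max_left m m₀).trans hge)
  refine ⟨j, ?_⟩
  rw [Nat.add_comm j m, ← hj]
  simp only [T, mem_iUnion, Finset.mem_filter, exists_prop]
  refine ⟨f i (max m m₀) l, ⟨?_, hf i _ l⟩, hl⟩
  have := hm₀ _ ((le_max_right m m₀).trans hge)
  simpa [F] using this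

/-- Covering by null sets indexed by a family that no `y` avoids (finite atomless measure). -/
lemma null_cover_finite (μ : Measure Baire) [IsFiniteMeasure μ] (hat : ∀ x, μ {x} = 0)
    (A : Set Baire) (hA : ¬ ∃ y : Baire, ∀ x ∈ A, EvDiff x y) :
    ∃ N : A → Set Baire, (∀ a, μ (N a) = 0) ∧ ⋃ a, N a = Set.univ := by
  classical
  have h1 : ∀ n : ℕ, ∃ P : ℕ → Set Baire, (∀ j, μ (P j) ≤ ((2 : ENNReal)⁻¹) ^ n) ∧
      ⋃ j, P j = Set.univ := by
    intro n
    have hpos : (0 : ENNReal) < ((2 : ENNReal)⁻¹) ^ n := ENNReal.pow_pos (by simp) n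
    have h2 : ∀ x : Baire, ∃ U : Set Baire, x ∈ U ∧ IsOpen U ∧ μ U < ((2 : ENNReal)⁻¹) ^ n := by
      intro x
      obtain ⟨U, hU, hUo, hUl⟩ := ({x} : Set Baire).exists_isOpen_lt_of_lt _ ((hat x).symm ▸ hpos)
      exact ⟨U, hU rfl, hUo, hUl⟩
    choose U hxU hUo hUl using h2
    obtain ⟨T, hTc, hT⟩ := TopologicalSpace.isOpen_iUnion_countable U hUo
    have huniv : ⋃ x, U x = Set.univ := by
      ext x
      simp only [mem_iUnion, mem_univ, iff_true]
      exact ⟨x, hxU x⟩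
    rw [huniv] at hT
    have hTne : T.Nonempty := by
      by_contra h
      rw [not_nonempty_iff_eq_empty] at h
      rw [h] at hT
      simp only [mem_empty_iff_false, iUnion_of_empty, iUnion_empty] at hT
      exact (hT ▸ (mem_univ (0 : Baire)) : (0 : Baire) ∈ (∅ : Set Baire))
    obtain ⟨g, hg⟩ := hTc.exists_eq_range hTne
    refine ⟨fun j => U (g j), fun j => (hUl _).le, ?_⟩
    rw [hg, biUnion_range] at hT
    exact hT
  choose P hP hPu using h1
  have hz : ∀ x : Baire, ∃ z : Baire, ∀ n, x ∈ P n (z n) := by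
    intro x
    have : ∀ n, ∃ j, x ∈ P n j := fun n => by
      have := hPu n ▸ mem_univ x
      exact mem_iUnion.mp this
    choose z hz using this
    exact ⟨z, hz⟩
  refine ⟨fun a => limsup (fun n => P n (a.1 n)) atTop, ?_, ?_⟩
  · intro a
    apply measure_limsup_atTop_eq_zero
    refine ne_top_of_le_ne_top ?_ (ENNReal.tsum_le_tsum fun n => hP n (a.1 n))
    rw [ENNReal.tsum_geometric]
    simp
  · ext x
    simp only [mem_univ, iff_true, mem_iUnion]
    obtain ⟨z, hz⟩ := hz x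
    have : ∃ a ∈ A, ¬ EvDiff a z := by
      by_contra hcon
      push Not at hcon
      exact hA ⟨z, hcon⟩
    obtain ⟨a, ha, haz⟩ := this
    refine ⟨⟨a, ha⟩, ?_⟩
    rw [limsup_eq_iInf_iSup_of_nat']
    simp only [iInf_eq_iInter, iSup_eq_iUnion, mem_iInter, mem_iUnion]
    intro m
    unfold EvDiff at haz
    rw [eventually_atTop] at haz
    push Not at haz
    obtain ⟨k, hk, hk'⟩ := haz m
    obtain ⟨j, hj⟩ := Nat.exists_eq_add_of_le hk
    refine ⟨j, ?_⟩
    rw [Nat.add_comm j m, ← hj, hk']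
    exact hz k

/-- A union of fewer than `b(∈*)` null sets is null (`σ`-finite measure). -/
lemma null_iUnion (μ : Measure Baire) [SigmaFinite μ] {ι : Type} (hι : #ι < bIn)
    (N : ι → Set Baire) (hN : ∀ i, μ (N i) = 0) : μ (⋃ i, N i) = 0 := by
  rw [← toFinite_apply_eq_zero_iff]
  exact null_iUnion_finite μ.toFinite hι N fun i => toFinite_apply_eq_zero_iff.mpr (hN i)

lemma null_cover (μ : Measure Baire) [SigmaFinite μ] (hat : ∀ x, μ {x} = 0)
    (A : Set Baire) (hA : ¬ ∃ y : Baire, ∀ x ∈ A, EvDiff x y) :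
    ∃ N : A → Set Baire, (∀ a, μ (N a) = 0) ∧ ⋃ a, N a = Set.univ := by
  obtain ⟨N, hN, hN'⟩ := null_cover_finite μ.toFinite
    (fun x => toFinite_apply_eq_zero_iff.mpr (hat x)) A hA
  exact ⟨N, fun a => toFinite_apply_eq_zero_iff.mp (hN a), hN'⟩

/-! ### Lower bounds for `b(≠*_N)` -/

lemma pointwise_avoid {κ : Cardinal.{0}} (hκ : κ < bNe) (μ : Measure Baire)
    (A : Set (Baire → Baire)) (hA : #A ≤ κ) : ∃ g : Baire → Baire, ∀ f ∈ A,
      RelMod EvDiff (idealN μ) f g := by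
  have h1 : ∀ x : Baire, ∃ y : Baire, ∀ f : A, EvDiff (f.1 x) y := fun x =>
    avoided (hA.trans_lt hκ) fun f : A => f.1 x
  choose g hg using h1
  refine ⟨g, fun f hf => ?_⟩
  have : {x | ¬ EvDiff (f x) (g x)} = ∅ := by
    ext x
    simp only [mem_ofPred_eq, mem_empty_iff_false, iff_false, not_not]
    exact hg x ⟨f, hf⟩
  simp only [RelMod, idealN, mem_ofPred_eq]
  rw [this]
  exact measure_empty

/-- the well-ordered index type of size `b(∈*)` -/
abbrev T : Type := bIn.ord.ToType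

lemma mk_T : #T = bIn := mk_ord_toType _

lemma mk_Iio_T (i : T) : #(Iio i) < bIn := by
  have := mk_Iio_lt (α := T) i (by simp)
  rwa [mk_T] at this

lemma mk_Iic_T (i : T) : #(Iic i) < bIn := by
  have := mk_Iic_lt (α := T) i (by simp) (by rw [mk_T]; exact aleph0_le_bIn)
  rwa [mk_T] at this

/-- `b(≠*_N) > b(∈*)` in the strong form: every family of size `≤ b(∈*)` is bounded. -/
lemma bdd_of_le (μ : Measure Baire) [SigmaFinite μ] (hat : ∀ x, μ {x} = 0)
    (A : Set (Baire → Baire)) (hA : #A ≤ bIn) : ∃ g : Baire → Baire, ∀ f ∈ A,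
      RelMod EvDiff (idealN μ) f g := by
  classical
  rcases lt_or_ge bIn bNe with hlt | hge
  · exact pointwise_avoid hlt μ A hA
  · obtain ⟨Y, hY, hY'⟩ := exists_unavoided
    obtain ⟨N, hN, hNu⟩ := null_cover μ hat Y hY'
    have hYT : #Y ≤ #T := by rw [hY, mk_T]; exact hge
    obtain ⟨eY⟩ := hYT
    have hAT : #A ≤ #T := by rw [mk_T]; exact hA
    obtain ⟨eA⟩ := hAT
    -- rank of a point
    have h1 : ∀ x : Baire, ∃ a : Y, x ∈ N a := fun x => mem_iUnion.mp (hNu ▸ mem_univ x)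
    choose a ha using h1
    -- choose `g x`
    have h2 : ∀ x : Baire, ∃ y : Baire, ∀ f : {f : A // eA f ≤ eY (a x)}, EvDiff (f.1.1 x) y := by
      intro x
      apply avoided
      refine lt_of_le_of_lt ?_ ((mk_Iic_T (eY (a x))).trans_le bIn_le_bNe)
      refine mk_le_of_injective (f := fun f : {f : A // eA f ≤ eY (a x)} =>
        (⟨eA f.1, f.2⟩ : Iic (eY (a x)))) ?_
      intro f f' hff'
      exact Subtype.ext (eA.injective (congrArg Subtype.val hff'))
    choose g hg using h2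
    refine ⟨g, fun f hf => ?_⟩
    have hsub : {x | ¬ EvDiff (f x) (g x)} ⊆ ⋃ b : {b : Y // eY b < eA ⟨f, hf⟩}, N b.1 := by
      intro x hx
      rw [mem_iUnion]
      refine ⟨⟨a x, ?_⟩, ha x⟩
      by_contra hcon
      exact hx (hg x ⟨⟨f, hf⟩, not_lt.mp hcon⟩)
    refine measure_mono_null hsub (null_iUnion μ ?_ _ fun b => hN b.1)
    refine lt_of_le_of_lt ?_ (mk_Iio_T (eA ⟨f, hf⟩))
    refine mk_le_of_injective (f := fun b : {b : Y // eY b < eA ⟨f, hf⟩} =>
      (⟨eY b.1, b.2⟩ : Iio (eA ⟨f, hf⟩))) ?_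
    intro b b' hbb'
    exact Subtype.ext (eY.injective (congrArg Subtype.val hbb'))

/-! ### Upper bounds for `b(∈*_K)` -/

/-- If `b(∈*) < d` then `b(∈*_K) ≤ b(∈*)`. -/
lemma case_lt (h : bIn < dNum) : boundingNumber EvIn idealK ≤ bIn := by
  obtain ⟨A, hA, hA'⟩ := exists_uncaptured
  have h1 : boundingNumber EvIn idealK ≤ #(range fun a : A => (fun _ : Baire => a.1)) := by
    refine csInf_le' ⟨_, rfl, ?_⟩
    rintro ⟨g, hg⟩
    have h2 : ∀ a : A, ∃ h : Baire, ∀ x : Baire, ¬ EvIn a.1 (g x) → ∀ᶠ n in atTop, x n ≤ h n := by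
      intro a
      obtain ⟨h, hh⟩ := idealK_bdd (hg _ ⟨a, rfl⟩)
      exact ⟨h, fun x hx => hh x hx⟩
    choose H hH using h2
    obtain ⟨x, hx⟩ := not_dominating (hA.trans_lt h) H
    exact hA' ⟨g x, fun a ha => by
      by_contra hcon
      exact hx ⟨a, ha⟩ (hH ⟨a, ha⟩ x hcon)⟩
  exact h1.trans (mk_range_le.trans hA.le)

/-- In the case `d ≤ b(∈*)`: a dominating family indexed by `T`. -/
lemma exists_dominating_T (h : dNum ≤ bIn) : ∃ d : T → Baire,
    ∀ x : Baire, ∃ i, ∀ᶠ n in atTop, x n ≤ d i n := by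
  obtain ⟨D, hD, hD'⟩ := exists_dominating
  have hle : #D ≤ #T := by rw [hD, mk_T]; exact h
  obtain ⟨e⟩ := hle
  have hne : Nonempty D := by
    obtain ⟨h, hh, -⟩ := hD' 0
    exact ⟨⟨h, hh⟩⟩
  refine ⟨fun i => (Function.invFun e i).1, fun x => ?_⟩
  obtain ⟨h, hh, hxh⟩ := hD' x
  refine ⟨e ⟨h, hh⟩, ?_⟩
  change ∀ᶠ n in atTop, x n ≤ (Function.invFun e (e ⟨h, hh⟩)).1 n
  rw [Function.leftInverse_invFun e.injective ⟨h, hh⟩]
  exact hxh

/-- upper bounds of initial segments -/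
lemma exists_bounds (d : T → Baire) : ∃ y : T → Baire,
    ∀ i, ∀ j ≤ i, ∀ᶠ n in atTop, d j n ≤ y i n := by
  have h1 : ∀ i : T, ∃ z : Baire, ∀ j ≤ i, ∀ᶠ n in atTop, d j n ≤ z n := by
    intro i
    obtain ⟨s, hs⟩ := captured (mk_Iic_T i) fun j : Iic i => d j
    obtain ⟨z, hz⟩ := slalom_bound s
    exact ⟨z, fun j hj => hz _ (hs ⟨j, hj⟩)⟩
  choose y hy using h1
  exact ⟨y, hy⟩

lemma not_all_bounded {d : T → Baire} (hd : ∀ x : Baire, ∃ i, ∀ᶠ n in atTop, x n ≤ d i n)
    {y : T → Baire} (hy : ∀ i, ∀ j ≤ i, ∀ᶠ n in atTop, d j n ≤ y i n)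
    {J : Set T} (hJ : bIn ≤ #J) (s : Slalom) : ¬ ∀ j ∈ J, EvIn (y j) s := by
  intro hcon
  obtain ⟨z, hz⟩ := slalom_bound s
  obtain ⟨i, hi⟩ := hd fun n => z n + 1
  have : ∃ j ∈ J, i ≤ j := by
    by_contra hno
    push Not at hno
    have : #J ≤ #(Iio i) := mk_le_mk_of_subset fun j hj => hno j hj
    exact absurd (hJ.trans this) (not_le.mpr (mk_Iio_T i))
  obtain ⟨j, hj, hij⟩ := this
  obtain ⟨n, hn, hn1, hn2⟩ := (hi.and ((hy j i hij).and (hz _ (hcon j hj)))).exists
  omega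

lemma code_injective {a b a' b' : Baire}
    (h : (fun n => Nat.pair (a n) (b n) + 1) = fun n => Nat.pair (a' n) (b' n) + 1) : a = a' := by
  funext n
  have := congrFun h n
  simp only [Nat.add_right_cancel_iff, Nat.pair_eq_pair] at this
  exact this.1

/-- If `d ≤ b(∈*) < c` then `b(∈*_K) ≤ b(∈*)⁺`. -/
lemma case_succ (h : dNum ≤ bIn) (hc : bIn < 𝔠) :
    boundingNumber EvIn idealK ≤ Order.succ bIn := by
  classical
  obtain ⟨d, hd⟩ := exists_dominating_T h
  obtain ⟨y, hy⟩ := exists_bounds d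
  let T' : Type := (Order.succ bIn).ord.ToType
  have hT' : #T' = Order.succ bIn := mk_ord_toType _
  have hT'c : #T' ≤ #Baire := by
    rw [hT']
    have : #Baire = 𝔠 := by simp [Baire]
    rw [this]
    exact Order.succ_le_of_lt hc
  obtain ⟨j⟩ := hT'c
  have hreg : (Order.succ bIn).IsRegular := isRegular_succ aleph0_le_bIn
  have hne : Nonempty T' := by
    rw [← mk_ne_zero_iff, hT']
    exact hreg.ne_zero
  -- the decoding map
  let P : T' → T → Baire := fun η i n => Nat.pair (j η n) (d i n) + 1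
  have hdec : ∃ c : Baire → T', ∀ η i, c (P η i) = η := by
    refine ⟨fun x => if hx : ∃ η i, x = P η i then hx.choose else Classical.choice hne, ?_⟩
    intro η i
    have hx : ∃ η' i', P η i = P η' i' := ⟨η, i, rfl⟩
    simp only [hx, dif_pos]
    have hs := hx.choose_spec
    obtain ⟨i', hi'⟩ := hs
    exact (j.injective (code_injective hi')).symm
  obtain ⟨c, hc'⟩ := hdec
  have he : ∀ η : T', Nonempty (Iio η ↪ T) := by
    intro η
    have h1 : #(Iio η) < #T' := mk_Iio_lt (α := T') η (by simp [T'])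
    rw [hT', Order.lt_succ_iff] at h1
    have h2 : #(Iio η) ≤ #T := by rw [mk_T]; exact h1
    exact h2
  let e : ∀ η : T', Iio η ↪ T := fun η => (he η).some
  let f : T' → Baire → Baire := fun ξ x => if hx : ξ < c x then y (e (c x) ⟨ξ, hx⟩) else 0
  have h1 : boundingNumber EvIn idealK ≤ #(range f) := by
    refine csInf_le' ⟨_, rfl, ?_⟩
    rintro ⟨g, hg⟩
    have h2 : ∀ ξ : T', ∃ i : T, ∀ x : Baire, ¬ EvIn (f ξ x) (g x) → ∀ᶠ n in atTop, x n ≤ d i n := by
      intro ξ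
      obtain ⟨h, hh⟩ := idealK_bdd (hg _ ⟨ξ, rfl⟩)
      obtain ⟨i, hi⟩ := hd h
      refine ⟨i, fun x hx => ?_⟩
      filter_upwards [hh x hx, hi] with n h3 h4
      exact h3.trans h4
    choose r hr using h2
    obtain ⟨i₀, hi₀⟩ := infinite_pigeonhole (β := T') (α := T) r
      (by rw [hT']; exact aleph0_le_bIn.trans (Order.le_succ _))
      (by rw [hT', mk_T, hreg.cof_ord]; exact Order.lt_succ _)
    obtain ⟨I, hI, hIc⟩ := le_mk_iff_exists_subset.mp
      (show bIn ≤ #(r ⁻¹' {i₀}) by rw [hi₀, hT']; exact Order.le_succ _)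
    have hncof : ¬ IsCofinal I := by
      intro hcof
      have h5 := Order.cof_le hcof
      rw [hIc, Ordinal.cof_toType, hreg.cof_ord] at h5
      exact absurd h5 (not_le.mpr (Order.lt_succ _))
    obtain ⟨η, hη⟩ := not_isCofinal_iff.mp hncof
    let x : Baire := P η i₀
    have hcx : c x = η := hc' η i₀
    have hxnot : ¬ ∀ᶠ n in atTop, x n ≤ d i₀ n := by
      intro hx
      obtain ⟨n, hn⟩ := hx.exists
      have : d i₀ n ≤ Nat.pair (j η n) (d i₀ n) := Nat.right_le_pair _ _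
      simp only [x, P] at hn
      omega
    have hcap : ∀ ξ (hξ : ξ ∈ I), EvIn (y (e η ⟨ξ, hη ξ hξ⟩)) (g x) := by
      intro ξ hξ
      by_contra hcon
      have hrξ : r ξ = i₀ := hI hξ
      apply hxnot
      rw [← hrξ]
      apply hr ξ x
      have hfx : f ξ x = y (e η ⟨ξ, hη ξ hξ⟩) := by
        have hlt : ξ < c x := by rw [hcx]; exact hη ξ hξ
        simp only [f, hlt, dif_pos]
        congr 1
        have : ∀ η' (h : η' = η) (h' : ξ < η'), e η' ⟨ξ, h'⟩ = e η ⟨ξ, hη ξ hξ⟩ := by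
          intro η' h h'
          subst h
          rfl
        exact this _ hcx _
      rw [hfx]
      exact hcon
    let J : Set T := range fun ξ : I => e η ⟨ξ.1, hη ξ.1 ξ.2⟩
    have hJ : bIn ≤ #J := by
      have hinj : Function.Injective fun ξ : I => e η ⟨ξ.1, hη ξ.1 ξ.2⟩ := by
        intro ξ ξ' hξ
        have h6 := (e η).injective hξ
        exact Subtype.ext (congrArg (fun t : Iio η => t.1) h6)
      rw [mk_range_eq _ hinj, hIc]
    refine not_all_bounded hd hy hJ (g x) ?_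
    rintro _ ⟨ξ, rfl⟩
    exact hcap ξ.1 ξ.2
  calc boundingNumber EvIn idealK ≤ #(range f) := h1
    _ ≤ #T' := mk_range_le
    _ = _ := hT'

/-- If `d ≤ b(∈*) = c` then `b(∈*_K) ≤ b(≠*_N)`. -/
lemma case_continuum (h : dNum ≤ bIn) (hc : bIn = 𝔠) (μ : Measure Baire) [SigmaFinite μ]
    (hat : ∀ x, μ {x} = 0) (A : Set (Baire → Baire))
    (hA : ¬ ∃ g : Baire → Baire, ∀ f ∈ A, RelMod EvDiff (idealN μ) f g) :
    boundingNumber EvIn idealK ≤ #A := by
  classical
  obtain ⟨d, hd⟩ := exists_dominating_T h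
  obtain ⟨y, hy⟩ := exists_bounds d
  have hBT : #Baire = #T := by
    rw [mk_T, hc]
    simp [Baire]
  obtain ⟨b⟩ := Cardinal.eq.mp hBT
  let π : Baire → Baire := fun x n => Nat.pair (x n) (y (b x) n) + 1
  have hπ : Function.Injective π := fun x x' hxx' => code_injective hxx'
  have hπnull : ∀ i, μ {x | ∀ᶠ n in atTop, π x n ≤ d i n} = 0 := by
    intro i
    have hsub : {x | ∀ᶠ n in atTop, π x n ≤ d i n} ⊆ ⋃ k : Iio i, {b.symm k} := by
      intro x hx
      rw [mem_iUnion]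
      have hlt : b x < i := by
        by_contra hcon
        rw [not_lt] at hcon
        have hx' : ∀ᶠ n in atTop, π x n ≤ d i n := hx
        obtain ⟨n, hn, hn'⟩ := (hx'.and (hy (b x) i hcon)).exists
        have : y (b x) n ≤ Nat.pair (x n) (y (b x) n) := Nat.right_le_pair _ _
        simp only [π] at hn
        omega
      exact ⟨⟨b x, hlt⟩, by simp⟩
    exact measure_mono_null hsub (null_iUnion μ (mk_Iio_T i) _ fun k => hat _)
  -- transfer
  let F : (Baire → Baire) → (Baire → Baire) := fun f z =>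
    if hz : ∃ x, π x = z then f hz.choose else 0
  have hF : ∀ f x, F f (π x) = f x := by
    intro f x
    have hz : ∃ x', π x' = π x := ⟨x, rfl⟩
    simp only [F, hz, dif_pos]
    rw [hπ hz.choose_spec]
  have h1 : boundingNumber EvIn idealK ≤ #(F '' A) := by
    refine csInf_le' ⟨_, rfl, ?_⟩
    rintro ⟨G, hG⟩
    apply hA
    have h2 : ∀ x : Baire, ∃ z : Baire, ∀ w : Baire, EvIn w (G (π x)) → EvDiff w z := fun x =>
      slalom_avoid _
    choose g hg using h2
    refine ⟨g, fun f hf => ?_⟩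
    obtain ⟨hh, hhb⟩ := idealK_bdd (hG (F f) (mem_image_of_mem F hf))
    obtain ⟨i, hi⟩ := hd hh
    refine measure_mono_null ?_ (hπnull i)
    intro x hx
    have hx' : ¬ EvDiff (f x) (g x) := hx
    have h3 : ¬ EvIn (F f (π x)) (G (π x)) := by
      rw [hF]
      intro h4
      exact hx' (hg x _ h4)
    have h5 := hhb (π x) h3
    change ∀ᶠ n in atTop, π x n ≤ d i n
    filter_upwards [h5, hi] with n h6 h7
    exact h6.trans h7
  exact h1.trans mk_image_le

/-- **Main theorem.** For every nonzero `σ`-finite Borel measure `μ` on Baire space that vanishes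
on points (in particular for Lebesgue measure on Baire space), `b(∈*_K) ≤ b(≠*_N)`. -/
theorem boundingNumber_le (μ : Measure Baire) [SigmaFinite μ] (hat : ∀ x : Baire, μ {x} = 0)
    (hμ : μ ≠ 0) :
    boundingNumber EvIn idealK ≤ boundingNumber EvDiff (idealN μ) := by
  classical
  have hne : {κ : Cardinal.{0} | ∃ A : Set (Baire → Baire), #A = κ ∧
      ¬ ∃ g : Baire → Baire, ∀ f ∈ A, RelMod EvDiff (idealN μ) f g}.Nonempty := by
    refine ⟨_, Set.univ, rfl, ?_⟩
    rintro ⟨g, hg⟩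
    have h1 := hg g (mem_univ _)
    have h2 : {x | ¬ EvDiff (g x) (g x)} = Set.univ := by
      ext x
      simp only [mem_ofPred_eq, mem_univ, iff_true]
      intro h
      obtain ⟨n, hn⟩ := h.exists
      exact hn rfl
    simp only [RelMod, idealN, mem_ofPred_eq] at h1
    rw [h2, Measure.measure_univ_eq_zero] at h1
    exact hμ h1
  refine le_csInf hne ?_
  rintro κ ⟨A, rfl, hA⟩
  -- every unbounded family has size `> b(∈*)`
  have hgt : bIn < #A := by
    by_contra hcon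
    exact hA (bdd_of_le μ hat A (not_lt.mp hcon))
  rcases lt_or_ge bIn dNum with hlt | hge
  · exact (case_lt hlt).trans hgt.le
  · rcases bIn_le_continuum.lt_or_eq with hlt' | heq
    · exact (case_succ hge hlt').trans (Order.succ_le_of_lt hgt)
    · exact case_continuum hge heq μ hat A hA

end Pool.Agent.MP_1e8244_lc
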