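import Pool.Agent.MP_1e8244_lc.Proof

open Filter Cardinal MeasureTheory Set Topology ProbabilityTheory

namespace Pool.Agent.MP_1e8244_lc

/-- `K` is the ideal generated by the `≤*`-bounded sets. -/
theorem mem_idealK_iff (X : Set Baire) :
    X ∈ idealK ↔ ∃ h : Baire, ∀ x ∈ X, ∀ᶠ n in atTop, x n ≤ h n := by
  refine ⟨fun hX => idealK_bdd hX, ?_⟩
  rintro ⟨h, hh⟩
  refine ⟨⋃ p : ℕ × ℕ, {x : Baire | ∀ n, x n ≤ if n < p.1 then p.2 else h n}, ?_, ?_⟩
  · refine isSigmaCompact_iUnion_of_isCompact _ fun p => ?_
    have : {x : Baire | ∀ n, x n ≤ if n < p.1 then p.2 else h n} =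
        Set.pi Set.univ fun n => Set.Iic (if n < p.1 then p.2 else h n) := by
      ext x
      simp only [mem_ofPred_eq, Set.mem_pi, Set.mem_Iic, mem_univ, forall_const]
    rw [this]
    exact isCompact_univ_pi fun n => (Set.finite_Iic _).isCompact
  · intro x hx
    obtain ⟨m, hm⟩ := eventually_atTop.mp (hh x hx)
    rw [mem_iUnion]
    refine ⟨(m, (Finset.range m).sup x), fun n => ?_⟩
    by_cases hn : n < m
    · simp only [hn, if_true]
      exact Finset.le_sup (f := x) (Finset.mem_range.mpr hn)
    · simp only [hn, if_false]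
      exact hm n (not_lt.mp hn)

/-- The product measure on Baire space of a probability measure on `ℕ` all of whose point masses
are at most `c < 1` vanishes on points, so that `BoundingInequality` applies to it. -/
theorem product_vanishes (ν : Measure ℕ) [IsProbabilityMeasure ν] (c : ENNReal) (hc : c < 1)
    (hν : ∀ n, ν {n} ≤ c) (x : Baire) : Measure.infinitePi (fun _ : ℕ => ν) {x} = 0 := by
  have h1 : ∀ N : ℕ, Measure.infinitePi (fun _ : ℕ => ν) {x} ≤ c ^ N := by
    intro N
    calc Measure.infinitePi (fun _ : ℕ => ν) {x}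
        ≤ Measure.infinitePi (fun _ : ℕ => ν) (Set.pi (Finset.range N) fun n => {x n}) := by
          apply measure_mono
          rintro _ rfl n _
          rfl
      _ = ∏ n ∈ Finset.range N, ν {x n} := by
          rw [Measure.infinitePi_pi]
          intro n _
          exact measurableSet_singleton _
      _ ≤ ∏ n ∈ Finset.range N, c := Finset.prod_le_prod' fun n _ => hν _
      _ = c ^ N := by simp
  have h2 : Tendsto (fun N : ℕ => c ^ N) atTop (𝓝 0) :=
    ENNReal.tendsto_pow_atTop_nhds_zero_of_lt_one hc
  exact le_antisymm (ge_of_tendsto' h2 h1) bot_le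

end Pool.Agent.MP_1e8244_lc
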